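import Mathlib

/-!
MP_3976d4_co: order-preserving self-maps of posets of finite length with a special element `s`
such that the minimal elements below `s` are separated. Elementary proof.
-/

set_option autoImplicit false

universe u

namespace Pool.Agent.Helper82.SPX

variable {P : Type u} [PartialOrder P]

/-- A poset with bounded chains has no infinite strictly increasing sequence. -/
lemma wfGT (hn : ∃ n : ℕ, ∀ c : Finset P, IsChain (· ≤ ·) (c : Set P) → c.card ≤ n) :
    WellFounded ((· > ·) : P → P → Prop) := by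
  classical
  obtain ⟨n, hn⟩ := hn
  rw [RelEmbedding.wellFounded_iff_isEmpty]
  refine ⟨fun e => ?_⟩
  have hmono : StrictMono (fun k : ℕ => e k) := fun a b hab => e.map_rel_iff.2 hab
  have h1 := hn ((Finset.range (n + 1)).image (fun k : ℕ => e k)) (by
    intro x hx y hy _
    rw [Finset.coe_image] at hx hy
    obtain ⟨i, -, rfl⟩ := hx
    obtain ⟨j, -, rfl⟩ := hy
    rcases le_total i j with h | h
    · exact Or.inl (hmono.monotone h)
    · exact Or.inr (hmono.monotone h))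
  rw [Finset.card_image_of_injective _ hmono.injective, Finset.card_range] at h1
  omega

/-- A poset with bounded chains has no infinite strictly decreasing sequence. -/
lemma wfLT (hn : ∃ n : ℕ, ∀ c : Finset P, IsChain (· ≤ ·) (c : Set P) → c.card ≤ n) :
    WellFounded ((· < ·) : P → P → Prop) := by
  classical
  obtain ⟨n, hn⟩ := hn
  rw [RelEmbedding.wellFounded_iff_isEmpty]
  refine ⟨fun e => ?_⟩
  have hmono : StrictAnti (fun k : ℕ => e k) := fun a b hab => e.map_rel_iff.2 hab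
  have h1 := hn ((Finset.range (n + 1)).image (fun k : ℕ => e k)) (by
    intro x hx y hy _
    rw [Finset.coe_image] at hx hy
    obtain ⟨i, -, rfl⟩ := hx
    obtain ⟨j, -, rfl⟩ := hy
    rcases le_total i j with h | h
    · exact Or.inr (hmono.antitone h)
    · exact Or.inl (hmono.antitone h))
  rw [Finset.card_image_of_injective _ hmono.injective, Finset.card_range] at h1
  omega

/-- No common lower bound with `s`. -/
def NL (s x : P) : Prop := ∀ l, l ≤ s → l ≤ x → False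

lemma NL.mono {s x y : P} (h : NL s y) (hxy : x ≤ y) : NL s x :=
  fun l h1 h2 => h l h1 (h2.trans hxy)

/-- `al` is a choice of the joins `s ∨ f x`. -/
def IsAl (s : P) (f : P → P) (al : P → P) : Prop :=
  ∀ x, NL s (f x) → IsLUB ({s, f x} : Set P) (al x)

/-- `Ex al x u`: the sequence `x, al x, al (al x), ..` first leaves the set where `f` has values
without common lower bound with `s` in `u`. -/
inductive Ex (s : P) (f al : P → P) : P → P → Prop
  | stop (u : P) (h : ¬ NL s (f u)) : Ex s f al u u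
  | step (x u : P) (h : NL s (f x)) (h' : Ex s f al (al x) u) : Ex s f al x u

section

variable {s : P} {f al : P → P}

lemma lub_s {a b z : P} (h : IsLUB ({a, b} : Set P) z) : a ≤ z := h.1 (by simp)

lemma lub_f {a b z : P} (h : IsLUB ({a, b} : Set P) z) : b ≤ z := h.1 (by simp)

lemma lub_le {a b z w : P} (h : IsLUB ({a, b} : Set P) z) (h1 : a ≤ w) (h2 : b ≤ w) : z ≤ w := by
  apply h.2
  intro x hx
  rcases hx with rfl | hx
  · exact h1
  · rw [Set.mem_singleton_iff] at hx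
    rw [hx]
    exact h2

lemma nle (hwf : WellFounded ((· > ·) : P → P → Prop)) (hf : Monotone f)
    (hfix : ∀ x, f x ≠ x) (x : P) : ¬ x ≤ f x := by
  induction x using hwf.induction with
  | _ x ih =>
    intro h
    exact ih (f x) (lt_of_le_of_ne h (fun e => hfix x e.symm)) (hf h)

lemma nge (hwf : WellFounded ((· < ·) : P → P → Prop)) (hf : Monotone f)
    (hfix : ∀ x, f x ≠ x) (x : P) : ¬ f x ≤ x := by
  induction x using hwf.induction with
  | _ x ih =>
    intro h
    exact ih (f x) (lt_of_le_of_ne h (hfix x)) (hf h)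

lemma exists_min (hwf : WellFounded ((· < ·) : P → P → Prop)) (x : P) :
    ∃ m, IsMin m ∧ m ≤ x := by
  induction x using hwf.induction with
  | _ x ih =>
    by_cases h : IsMin x
    · exact ⟨x, h, le_rfl⟩
    · rw [not_isMin_iff] at h
      obtain ⟨y, hy⟩ := h
      obtain ⟨m, h1, h2⟩ := ih y hy
      exact ⟨m, h1, h2.trans hy.le⟩

/-- condition on the starting points of the sequences -/
def Gd (s : P) (f al : P → P) (x : P) : Prop :=
  (NL s (f x) → x ≤ al x) ∧
    (¬ NL s (f x) → ¬ s ≤ f x ∧ ∀ z, IsLUB ({s, f x} : Set P) z → x ≤ z)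

lemma Gd.step (hal : IsAl s f al) (hf : Monotone f) (hnle : ∀ x, ¬ x ≤ f x) {x : P}
    (hx : Gd s f al x) (h : NL s (f x)) : Gd s f al (al x) := by
  have h1 := hal x h
  have h2 := hx.1 h
  refine ⟨fun h3 => ?_, fun _ => ⟨fun h4 => ?_, fun z hz => ?_⟩⟩
  · have h4 := hal (al x) h3
    exact lub_le h1 (lub_s h4) ((hf h2).trans (lub_f h4))
  · exact hnle (al x) (lub_le h1 h4 (hf h2))
  · exact lub_le h1 (lub_s hz) ((hf h2).trans (lub_f hz))

lemma exists_exit (hwf : WellFounded ((· > ·) : P → P → Prop)) (hal : IsAl s f al)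
    (hf : Monotone f) (hnle : ∀ x, ¬ x ≤ f x) (hnge : ∀ x, ¬ f x ≤ x) (x : P)
    (hx : Gd s f al x) : ∃ u, Ex s f al x u := by
  induction x using hwf.induction with
  | _ x ih =>
    by_cases h : NL s (f x)
    · have h1 := hx.1 h
      have h2 : x < al x := by
        refine lt_of_le_of_ne h1 (fun e => hnge x ?_)
        have := lub_f (hal x h)
        rwa [← e] at this
      obtain ⟨u, hu⟩ := ih (al x) h2 (hx.step hal hf hnle h)
      exact ⟨u, Ex.step x u h hu⟩
    · exact ⟨x, Ex.stop x h⟩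

lemma exit_props (hal : IsAl s f al) (hf : Monotone f) (hnle : ∀ x, ¬ x ≤ f x) {x u : P}
    (h : Ex s f al x u) (hx : Gd s f al x) :
    x ≤ u ∧ (NL s (f x) → al x ≤ u) ∧ ¬ NL s (f u) ∧ ¬ s ≤ f u ∧
      ∀ z, IsLUB ({s, f u} : Set P) z → u ≤ z := by
  induction h with
  | stop u h => exact ⟨le_rfl, fun h' => absurd h' h, h, hx.2 h⟩
  | step x u h h' ih =>
    obtain ⟨h1, -, h2⟩ := ih (hx.step hal hf hnle h)
    exact ⟨(hx.1 h).trans h1, fun _ => h1, h2⟩

/-- Beyond an exit there is an element where the meet with `s` exists. -/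
lemma exists_glb (hwf : WellFounded ((· > ·) : P → P → Prop)) (hf : Monotone f)
    (hnle : ∀ x, ¬ x ≤ f x) (hnge : ∀ x, ¬ f x ≤ x)
    (h1 : ∀ x : P, (∃ z : P, IsLUB ({s, x} : Set P) z) ∨ (∃ z : P, IsGLB ({s, x} : Set P) z))
    (u : P) (hs : ¬ s ≤ f u) (hu : ∀ z, IsLUB ({s, f u} : Set P) z → u ≤ z) :
    ∃ w t, u ≤ w ∧ IsGLB ({s, f w} : Set P) t ∧ t < s := by
  induction u using hwf.induction with
  | _ u ih =>
    rcases h1 (f u) with ⟨z, hz⟩ | ⟨t, ht⟩
    · have h2 := hu z hz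
      have h3 : u < z := by
        refine lt_of_le_of_ne h2 (fun e => hnge u ?_)
        have := lub_f hz
        rwa [← e] at this
      obtain ⟨w, t, h4, h5⟩ := ih z h3
        (fun h4 => hnle z (lub_le hz h4 (hf h2)))
        (fun z' hz' => lub_le hz (lub_s hz') ((hf h2).trans (lub_f hz')))
      exact ⟨w, t, h2.trans h4, h5⟩
    · refine ⟨u, t, le_rfl, ht, lt_of_le_of_ne (ht.1 (by simp)) (fun e => hs ?_)⟩
      rw [← e]
      exact ht.1 (by simp)

/-- Comparison of exits. -/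
lemma exits_comparable (hal : IsAl s f al) (hf : Monotone f) {x u : P} (h : Ex s f al x u) :
    ∀ {y u' : P}, Ex s f al y u' → x ≤ y → (NL s (f x) → y ≤ al x) → u ≤ u' ∨ u' ≤ u := by
  induction h with
  | stop u h =>
    intro y u' h' hxy _
    cases h' with
    | stop _ _ => exact Or.inl hxy
    | step _ _ h2 _ => exact absurd (h2.mono (hf hxy)) h
  | step x u h hu ih =>
    intro y u' h' hxy hya
    have h1 := hya h
    cases h' with
    | stop _ h2 =>
      cases hu with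
      | stop _ _ => exact Or.inr h1
      | step _ _ h3 _ => exact absurd (h3.mono (hf h1)) h2
    | step _ _ h2 h3 =>
      refine ih h3 (lub_le (hal x h) (lub_s (hal y h2)) ((hf hxy).trans (lub_f (hal y h2)))) ?_
      intro h4
      exact lub_le (hal y h2) (lub_s (hal _ h4)) ((hf h1).trans (lub_f (hal _ h4)))

end

/-- **Abstract theorem.** -/
theorem core (hlt : WellFounded ((· < ·) : P → P → Prop))
    (hgt : WellFounded ((· > ·) : P → P → Prop)) (s : P)
    (h1 : ∀ x : P, (∃ z : P, IsLUB ({s, x} : Set P) z) ∨ (∃ z : P, IsGLB ({s, x} : Set P) z))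
    (hH : ∀ c a b : P, c < s → a ≤ c → b ≤ c → IsMin a → IsMin b → a = b)
    (h2 : ∀ x y t m : P, x < y → NL s x → IsGLB ({s, y} : Set P) t → t < s → IsMin m → m ≤ t →
      ∃ z : P, IsLUB ({m, x} : Set P) z)
    (f : P → P) (hf : Monotone f) : ∃ x, f x = x := by
  classical
  by_contra hfix
  push Not at hfix
  have hnle := nle hgt hf hfix
  have hnge := nge hlt hf hfix
  obtain ⟨al, hal⟩ : ∃ al : P → P, IsAl s f al := by
    refine ⟨fun x => if h : ∃ z, IsLUB ({s, f x} : Set P) z then h.choose else x, fun x hx => ?_⟩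
    have h : ∃ z, IsLUB ({s, f x} : Set P) z := by
      rcases h1 (f x) with h | ⟨z, hz⟩
      · exact h
      · exact (hx z (hz.1 (by simp)) (hz.1 (by simp))).elim
    simp only [dif_pos h]
    exact h.choose_spec
  -- data at an exit
  have hexit : ∀ u, ¬ NL s (f u) → ¬ s ≤ f u → (∀ z, IsLUB ({s, f u} : Set P) z → u ≤ z) →
      ∃ d w t, IsMin d ∧ d ≤ s ∧ d ≤ f u ∧ u ≤ w ∧ IsGLB ({s, f w} : Set P) t ∧ t < s ∧ d ≤ t ∧
        ∀ m, IsMin m → m ≤ s → m ≤ f u → m = d := by
    intro u hu hs hz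
    obtain ⟨w, t, k1, k2, k3⟩ := exists_glb hgt hf hnle hnge h1 u hs hz
    have hu' : ∃ l, l ≤ s ∧ l ≤ f u := by
      by_contra hc
      push Not at hc
      exact hu (fun l h3 h4 => hc l h3 h4)
    obtain ⟨l, hl1, hl2⟩ := hu'
    obtain ⟨d, hd1, hd2⟩ := exists_min hlt l
    have hle : ∀ m, m ≤ s → m ≤ f u → m ≤ t := by
      intro m hm1 hm2
      apply k2.2
      intro x hx
      rcases hx with rfl | hx
      · exact hm1
      · rw [Set.mem_singleton_iff] at hx
        rw [hx]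
        exact hm2.trans (hf k1)
    refine ⟨d, w, t, hd1, hd2.trans hl1, hd2.trans hl2, k1, k2, k3,
      hle d (hd2.trans hl1) (hd2.trans hl2), fun m hm1 hm2 hm3 => ?_⟩
    exact hH t m d k3 (hle m hm2 hm3) (hle d (hd2.trans hl1) (hd2.trans hl2)) hm1 hd1
  -- the exit of `s`
  have hGs : Gd s f al s := ⟨fun h => lub_s (hal s h), fun _ => ⟨hnle s, fun z hz => lub_s hz⟩⟩
  obtain ⟨u0, hu0⟩ := exists_exit hgt hal hf hnle hnge s hGs
  obtain ⟨p1, -, p2, p3, p4⟩ := exit_props hal hf hnle hu0 hGs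
  obtain ⟨d, w0, t0, d1, d2, d3, d4, d5, d6, d7, d8⟩ := hexit u0 p2 p3 p4
  -- states
  let St : P → Prop := fun x => d ≤ x ∧ NL s (f x) ∧ (∃ z, IsLUB ({d, f x} : Set P) z ∧ x ≤ z) ∧
    ∃ u, Ex s f al x u ∧ d ≤ f u
  have hgood : ∀ x, NL s (f x) → (∃ z, IsLUB ({d, f x} : Set P) z ∧ x ≤ z) → Gd s f al x := by
    rintro x hx ⟨z, hz1, hz2⟩
    refine ⟨fun _ => ?_, fun h => absurd hx h⟩
    exact hz2.trans (lub_le hz1 (d2.trans (lub_s (hal x hx))) (lub_f (hal x hx)))
  -- initial state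
  have hstart : St d := by
    have hNd : NL s (f d) := by
      intro l hl1 hl2
      obtain ⟨m, hm1, hm2⟩ := exists_min hlt l
      have := d8 m hm1 (hm2.trans hl1) ((hm2.trans hl2).trans (hf (d2.trans p1)))
      rw [this] at hm2
      exact hnle d (hm2.trans hl2)
    have hlt' : f d < f w0 := by
      refine lt_of_le_of_ne (hf ((d2.trans p1).trans d4)) (fun e => ?_)
      rw [e] at hNd
      exact hNd t0 (d5.1 (by simp)) (d5.1 (by simp))
    obtain ⟨z, hz⟩ := h2 (f d) (f w0) t0 d hlt' hNd d5 d6 d1 d7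
    have hG := hgood d hNd ⟨z, hz, lub_s hz⟩
    obtain ⟨u, hu⟩ := exists_exit hgt hal hf hnle hnge d hG
    obtain ⟨-, -, q2, q3, q4⟩ := exit_props hal hf hnle hu hG
    refine ⟨le_rfl, hNd, ⟨z, hz, lub_s hz⟩, u, hu, ?_⟩
    rcases exits_comparable hal hf hu hu0 d2 (fun _ => lub_s (hal d hNd)) with h | h
    · obtain ⟨d', -, -, e1, e2, e3, -⟩ := hexit u q2 q3 q4
      have := d8 d' e1 e2 (e3.trans (hf h))
      rw [← this]
      exact e3
    · exact d3.trans (hf h)
  -- the step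
  have hstep : ∀ x, St x → ∃ y, St y ∧ x < y := by
    rintro x ⟨x1, x2, x3, u, hu, x4⟩
    have hG := hgood x x2 x3
    obtain ⟨-, q1, q2, q3, q4⟩ := exit_props hal hf hnle hu hG
    obtain ⟨d', w, t, e1, e2, e3, e4, e5, e6, e7, e8⟩ := hexit u q2 q3 q4
    have hdd : d = d' := e8 d d1 d2 x4
    subst hdd
    obtain ⟨y, y1, y2⟩ := x3
    have hyal : y ≤ al x := lub_le y1 (d2.trans (lub_s (hal x x2))) (lub_f (hal x x2))
    have hyu : y ≤ u := hyal.trans (q1 x2)
    have hNy : NL s (f y) := by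
      intro l hl1 hl2
      obtain ⟨m, hm1, hm2⟩ := exists_min hlt l
      have := e8 m hm1 (hm2.trans hl1) ((hm2.trans hl2).trans (hf hyu))
      rw [this] at hm2
      exact hnle y (lub_le y1 (hm2.trans hl2) (hf y2))
    have hlt' : f y < f w := by
      refine lt_of_le_of_ne (hf (hyu.trans e4)) (fun e => ?_)
      rw [e] at hNy
      exact hNy t (e5.1 (by simp)) (e5.1 (by simp))
    obtain ⟨z, hz⟩ := h2 (f y) (f w) t d hlt' hNy e5 e6 d1 e7
    have hyz : y ≤ z := lub_le y1 (lub_s hz) ((hf y2).trans (lub_f hz))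
    have hGy := hgood y hNy ⟨z, hz, hyz⟩
    obtain ⟨u', hu'⟩ := exists_exit hgt hal hf hnle hnge y hGy
    obtain ⟨-, -, r2, r3, r4⟩ := exit_props hal hf hnle hu' hGy
    refine ⟨y, ⟨x1.trans y2, hNy, ⟨z, hz, hyz⟩, u', hu', ?_⟩, ?_⟩
    · rcases exits_comparable hal hf hu hu' y2 (fun _ => hyal) with h | h
      · exact x4.trans (hf h)
      · obtain ⟨d', -, -, g1, g2, g3, -⟩ := hexit u' r2 r3 r4
        have := e8 d' g1 g2 (g3.trans (hf h))
        rw [← this]
        exact g3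
    · refine lt_of_le_of_ne y2 (fun e => hnge x ?_)
      have := lub_f y1
      rwa [← e] at this
  -- conclusion
  have hend : ∀ x, St x → False := by
    intro x
    induction x using hgt.induction with
    | _ x ih =>
      intro hS
      obtain ⟨y, hy1, hy2⟩ := hstep x hS
      exact ih y hy2 hy1
  exact hend d hstart

/-- **Main theorem**, with its order dual. -/
theorem main (hlt : WellFounded ((· < ·) : P → P → Prop))
    (hgt : WellFounded ((· > ·) : P → P → Prop)) (s : P)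
    (h1 : ∀ x : P, (∃ z : P, IsLUB ({s, x} : Set P) z) ∨ (∃ z : P, IsGLB ({s, x} : Set P) z))
    (h : ((∀ c a b : P, c < s → IsMin a → IsMin b → a ≤ c → b ≤ c → a = b) ∧
            (∀ x y t m : P, x < y → (¬ ∃ l : P, l ≤ s ∧ l ≤ x) → IsGLB ({s, y} : Set P) t →
              t < s → IsMin m → m ≤ t → ∃ z : P, IsLUB ({m, x} : Set P) z)) ∨
          ((∀ c a b : P, s < c → IsMax a → IsMax b → c ≤ a → c ≤ b → a = b) ∧
            (∀ x y t m : P, y < x → (¬ ∃ l : P, s ≤ l ∧ x ≤ l) → IsLUB ({s, y} : Set P) t →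
              s < t → IsMax m → t ≤ m → ∃ z : P, IsGLB ({m, x} : Set P) z)))
    (f : P → P) (hf : Monotone f) : ∃ x, f x = x := by
  rcases h with ⟨h2, h3⟩ | ⟨h2, h3⟩
  · refine core hlt hgt s h1 (fun c a b hc ha hb hma hmb => h2 c a b hc hma hmb ha hb) ?_ f hf
    intro x y t m hxy hx ht hts hm hmt
    exact h3 x y t m hxy (fun ⟨l, hl1, hl2⟩ => hx l hl1 hl2) ht hts hm hmt
  · refine core (P := Pᵒᵈ) hgt hlt (OrderDual.toDual s) (fun x => (h1 (OrderDual.ofDual x)).symm)
      (fun c a b hc ha hb hma hmb => h2 c a b hc hma.toDual hmb.toDual ha hb) ?_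
      (fun x => OrderDual.toDual (f (OrderDual.ofDual x))) hf.dual
    intro x y t m hxy hx ht hts hm hmt
    exact h3 x y t m hxy (fun ⟨l, hl1, hl2⟩ => hx l hl1 hl2) ht hts hm.toDual hmt

/-- **Posets.** -/
theorem posets (hn : ∃ n : ℕ, ∀ c : Finset P, IsChain (· ≤ ·) (c : Set P) → c.card ≤ n) (s : P)
    (h1 : ∀ x : P, (∃ z : P, IsLUB ({s, x} : Set P) z) ∨ (∃ z : P, IsGLB ({s, x} : Set P) z))
    (h2 : ∀ x y : P, x < y → (¬ ∃ z : P, IsGLB ({s, x} : Set P) z) →
      ∀ m : P, IsGLB ({s, y} : Set P) m → ∃ z : P, IsLUB ({m, x} : Set P) z)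
    (h3 : ∀ a b : P, a < s → b < s → a ≤ b → a = b)
    (f : P → P) (hf : Monotone f) : ∃ x, f x = x := by
  apply core (wfLT hn) (wfGT hn) s h1 _ _ f hf
  · intro c a b hc ha hb _ _
    rw [h3 a c (ha.trans_lt hc) hc ha, h3 b c (hb.trans_lt hc) hc hb]
  · intro x y t m hxy hx ht hts _ hmt
    rw [h3 m t (hmt.trans_lt hts) hts hmt]
    refine h2 x y hxy ?_ t ht
    rintro ⟨z, hz⟩
    exact hx z (hz.1 (by simp)) (hz.1 (by simp))

/-- The elements of a bounded lattice which are not `⊥`, `⊤` or complements of `s`. -/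
abbrev Tr {L : Type u} [Lattice L] [BoundedOrder L] (s : L) : Type u :=
  {x : L // x ≠ ⊥ ∧ x ≠ ⊤ ∧ ¬ IsCompl s x}

/-- **Lattices, first half.** -/
theorem lattices_aux {L : Type u} [Lattice L] [BoundedOrder L]
    (hn : ∃ n : ℕ, ∀ c : Finset L, IsChain (· ≤ ·) (c : Set L) → c.card ≤ n) (s : L)
    (hs0 : s ≠ ⊥) (hs1 : s ≠ ⊤)
    (h : ∀ a b : L, IsAtom a → IsAtom b → a ≤ s → b ≤ s → a ≠ b → a ⊔ b = s)
    (f : Tr s → Tr s) (hf : Monotone f) : ∃ x, f x = x := by
  classical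
  -- elements which meet `s` nontrivially
  have hmem : ∀ x : L, x ≠ ⊤ → s ⊓ x ≠ ⊥ → x ≠ ⊥ ∧ x ≠ ⊤ ∧ ¬ IsCompl s x := by
    intro x h1 h2
    refine ⟨fun h3 => h2 ?_, h1, fun h3 => h2 h3.inf_eq_bot⟩
    rw [h3, inf_bot_eq]
  have hchain : ∃ n : ℕ, ∀ c : Finset (Tr s), IsChain (· ≤ ·) (c : Set (Tr s)) → c.card ≤ n := by
    obtain ⟨n, hn⟩ := hn
    refine ⟨n, fun c hc => ?_⟩
    rw [← Finset.card_image_of_injective c Subtype.val_injective]
    apply hn
    intro x hx y hy hxy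
    rw [Finset.coe_image] at hx hy
    obtain ⟨x', hx', rfl⟩ := hx
    obtain ⟨y', hy', rfl⟩ := hy
    exact hc hx' hy' (fun e => hxy (by rw [e]))
  let s' : Tr s := ⟨s, hmem s hs1 (by rw [inf_idem]; exact hs0)⟩
  -- meets and joins
  have hglb : ∀ x : Tr s, s ⊓ x.1 ≠ ⊥ → ∃ t : Tr s, IsGLB ({s', x} : Set (Tr s)) t ∧
      t.1 = s ⊓ x.1 := by
    intro x hx
    refine ⟨⟨s ⊓ x.1, hmem _ (fun e => hs1 (top_le_iff.mp (e.symm.le.trans inf_le_left))) ?_⟩, ?_,
      rfl⟩
    · rw [← inf_assoc, inf_idem]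
      exact hx
    · constructor
      · rintro y hy
        rcases hy with rfl | hy
        · exact (inf_le_left : s ⊓ x.1 ≤ s)
        · rw [Set.mem_singleton_iff] at hy
          rw [hy]
          exact (inf_le_right : s ⊓ x.1 ≤ x.1)
      · intro y hy
        have k1 : y ≤ s' := hy (by simp)
        have k2 : y ≤ x := hy (by simp)
        exact (le_inf k1 k2 : y.1 ≤ s ⊓ x.1)
  have hlub : ∀ a x : Tr s, a.1 ≤ s → a.1 ⊔ x.1 ≠ ⊤ → ∃ t : Tr s,
      IsLUB ({a, x} : Set (Tr s)) t := by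
    intro a x ha hx
    refine ⟨⟨a.1 ⊔ x.1, hmem _ hx ?_⟩, ?_⟩
    · intro e
      have : a.1 ≤ s ⊓ (a.1 ⊔ x.1) := le_inf ha le_sup_left
      rw [e] at this
      exact a.2.1 (le_bot_iff.mp this)
    · constructor
      · rintro y hy
        rcases hy with rfl | hy
        · exact (le_sup_left : y.1 ≤ y.1 ⊔ x.1)
        · rw [Set.mem_singleton_iff] at hy
          rw [hy]
          exact (le_sup_right : x.1 ≤ a.1 ⊔ x.1)
      · intro y hy
        have k1 : a ≤ y := hy (by simp)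
        have k2 : x ≤ y := hy (by simp)
        exact (sup_le k1 k2 : a.1 ⊔ x.1 ≤ y.1)
  -- minimal elements below `s` are atoms
  have hatom : ∀ a : Tr s, a.1 ≤ s → IsMin a → IsAtom a.1 := by
    intro a ha hmin
    refine ⟨a.2.1, fun b hb => ?_⟩
    by_contra hb0
    have hbs : b ≤ s := hb.le.trans ha
    have hb' := hmem b (fun e => hs1 (top_le_iff.mp (e.symm.le.trans hbs)))
      (by rw [inf_eq_right.mpr hbs]; exact hb0)
    have h4 : (⟨b, hb'⟩ : Tr s) ≤ a := hb.le
    have h5 : a ≤ (⟨b, hb'⟩ : Tr s) := hmin h4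
    exact absurd (lt_of_le_of_lt (h5 : a.1 ≤ b) hb) (lt_irrefl _)
  apply core (wfLT hchain) (wfGT hchain) s' _ _ _ f hf
  · intro x
    by_cases hx : s ⊓ x.1 = ⊥
    · left
      refine hlub s' x le_rfl (fun e => x.2.2.2 ?_)
      exact ⟨disjoint_iff.mpr hx, codisjoint_iff.mpr e⟩
    · right
      obtain ⟨t, ht, -⟩ := hglb x hx
      exact ⟨t, ht⟩
  · intro c a b hc ha hb hma hmb
    by_contra hab
    have hcs : c.1 < s := hc
    have h4 := h a.1 b.1 (hatom a (le_trans (show a.1 ≤ c.1 from ha) hcs.le) hma)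
      (hatom b (le_trans (show b.1 ≤ c.1 from hb) hcs.le) hmb)
      (le_trans (show a.1 ≤ c.1 from ha) hcs.le) (le_trans (show b.1 ≤ c.1 from hb) hcs.le)
      (fun e => hab (Subtype.ext e))
    have h5 : a.1 ⊔ b.1 ≤ c.1 := sup_le ha hb
    rw [h4] at h5
    exact absurd (lt_of_le_of_lt h5 hcs) (lt_irrefl _)
  · intro x y t m hxy _ ht hts _ hmt
    have h4 : m.1 ≤ s := le_trans (show m.1 ≤ t.1 from hmt) (show t.1 ≤ s from hts.le)
    have h5 : m ≤ y := hmt.trans (ht.1 (by simp))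
    exact hlub m x h4 (fun e => y.2.2.1 (top_le_iff.mp (e.symm.le.trans
      (sup_le (show m.1 ≤ y.1 from h5) (show x.1 ≤ y.1 from hxy.le)))))

/-- **Lattices.** -/
theorem lattices {L : Type u} [Lattice L] [BoundedOrder L]
    (hn : ∃ n : ℕ, ∀ c : Finset L, IsChain (· ≤ ·) (c : Set L) → c.card ≤ n) (s : L)
    (hs0 : s ≠ ⊥) (hs1 : s ≠ ⊤)
    (h : (∀ a b : L, IsAtom a → IsAtom b → a ≤ s → b ≤ s → a ≠ b → a ⊔ b = s) ∨
      (∀ a b : L, IsCoatom a → IsCoatom b → s ≤ a → s ≤ b → a ≠ b → a ⊓ b = s))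
    (f : Tr s → Tr s) (hf : Monotone f) : ∃ x, f x = x := by
  classical
  rcases h with h | h
  · exact lattices_aux hn s hs0 hs1 h f hf
  · have key : ∀ x : L, (x ≠ ⊥ ∧ x ≠ ⊤ ∧ ¬ IsCompl s x) ↔
        (OrderDual.toDual x ≠ ⊥ ∧ OrderDual.toDual x ≠ ⊤ ∧
          ¬ IsCompl (OrderDual.toDual s) (OrderDual.toDual x)) := by
      intro x
      constructor
      · rintro ⟨h1, h2, h3⟩
        refine ⟨fun e => h2 e, fun e => h1 e, fun e => h3 ?_⟩
        exact e.ofDual
      · rintro ⟨h1, h2, h3⟩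
        refine ⟨fun e => h2 e, fun e => h1 e, fun e => h3 ?_⟩
        exact e.dual
    let g : Tr (OrderDual.toDual s) → Tr (OrderDual.toDual s) := fun x =>
      ⟨OrderDual.toDual (f ⟨OrderDual.ofDual x.1, (key _).2 x.2⟩).1,
        (key _).1 (f ⟨OrderDual.ofDual x.1, (key _).2 x.2⟩).2⟩
    have hg : Monotone g := by
      intro x y hxy
      have h1 : (⟨OrderDual.ofDual y.1, (key _).2 y.2⟩ : Tr s) ≤
          ⟨OrderDual.ofDual x.1, (key _).2 x.2⟩ := hxy
      exact hf h1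
    have hn' : ∃ n : ℕ, ∀ c : Finset Lᵒᵈ, IsChain (· ≤ ·) (c : Set Lᵒᵈ) → c.card ≤ n := by
      obtain ⟨n, hn⟩ := hn
      exact ⟨n, fun c hc => hn c (fun x hx y hy hxy => (hc hx hy hxy).symm)⟩
    obtain ⟨x, hx⟩ := lattices_aux (L := Lᵒᵈ) hn' (OrderDual.toDual s) (fun e => hs1 e)
      (fun e => hs0 e) (fun a b ha hb has hbs hab =>
        h (OrderDual.ofDual a) (OrderDual.ofDual b) (isAtom_dual_iff_isCoatom.mp ha)
          (isAtom_dual_iff_isCoatom.mp hb) has hbs hab) g hg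
    refine ⟨⟨OrderDual.ofDual x.1, (key _).2 x.2⟩, ?_⟩
    apply Subtype.ext
    have h7 : (g x).1 = x.1 := congrArg Subtype.val hx
    exact congrArg OrderDual.ofDual h7

/-- **Lattices with chains of at most six elements.** -/
theorem short {L : Type u} [Lattice L] [BoundedOrder L]
    (hn : ∀ c : Finset L, IsChain (· ≤ ·) (c : Set L) → c.card ≤ 6) (s : L)
    (hs0 : s ≠ ⊥) (hs1 : s ≠ ⊤) (f : Tr s → Tr s) (hf : Monotone f) : ∃ x, f x = x := by
  classical
  apply lattices ⟨6, hn⟩ s hs0 hs1 _ f hf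
  by_contra hc
  rw [not_or] at hc
  obtain ⟨h1, h2⟩ := hc
  push Not at h1 h2
  obtain ⟨a, b, ha, hb, has, hbs, hab, habs⟩ := h1
  obtain ⟨c, e, hcc, hec, hcs, hes, hce, hces⟩ := h2
  have l1 : (⊥ : L) < a := ha.bot_lt
  have l2 : a < a ⊔ b := by
    refine lt_of_le_of_ne le_sup_left (fun h => ?_)
    have h3 : b ≤ a := by rw [h]; exact le_sup_right
    rcases ha.le_iff.mp h3 with h4 | h4
    · exact hb.1 h4
    · exact hab h4.symm
  have l3 : a ⊔ b < s := lt_of_le_of_ne (sup_le has hbs) habs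
  have l4 : s < c ⊓ e := lt_of_le_of_ne (le_inf hcs hes) (fun h => hces h.symm)
  have l5 : c ⊓ e < c := by
    refine lt_of_le_of_ne inf_le_left (fun h => ?_)
    have h3 : c ≤ e := by rw [← h]; exact inf_le_right
    rcases hcc.le_iff.mp h3 with h4 | h4
    · exact hec.1 h4
    · exact hce h4.symm
  have l6 : c < ⊤ := hcc.lt_top
  have hL : List.Pairwise (· < ·) [(⊥ : L), a, a ⊔ b, s, c ⊓ e, c, ⊤] := by
    have m1 := l1.trans l2
    have m2 := l2.trans l3
    have m3 := l3.trans l4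
    have m4 := l4.trans l5
    have m5 := l5.trans l6
    rw [← List.isChain_iff_pairwise]
    simp only [List.isChain_cons_cons, List.isChain_singleton, and_true]
    exact ⟨l1, l2, l3, l4, l5, l6⟩
  have hnodup : ([(⊥ : L), a, a ⊔ b, s, c ⊓ e, c, ⊤] : List L).Nodup :=
    hL.imp (fun h => h.ne)
  have hcard := hn ([(⊥ : L), a, a ⊔ b, s, c ⊓ e, c, ⊤] : List L).toFinset (by
    intro x hx y hy hxy
    rw [Finset.mem_coe, List.mem_toFinset] at hx hy
    have h6 : ([(⊥ : L), a, a ⊔ b, s, c ⊓ e, c, ⊤] : List L).Pairwise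
        (fun x y => x ≤ y ∨ y ≤ x) := hL.imp (fun h => Or.inl h.le)
    have : Std.Symm (fun x y : L => x ≤ y ∨ y ≤ x) := ⟨fun _ _ h => Or.symm h⟩
    exact List.Pairwise.forall_of_forall (R := fun x y : L => x ≤ y ∨ y ≤ x)
      (fun x _ => Or.inl le_rfl) h6 hx hy)
  rw [List.toFinset_card_of_nodup hnodup] at hcard
  simp at hcard

end Pool.Agent.Helper82.SPX
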